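import Pool.Agent.KTK.Stmts2

/-!
# KTK, row PG2: pigeonhole principle with a bound
-/

set_option autoImplicit false

namespace Pool.Agent.KTK.H3

open Pool.Agent.PRT Pool.Agent.KTK
open scoped ContDiff

/-- two reals with the same cell -/
theorem floor_close {u v ρ : ℝ} (hρ : 0 < ρ) (h : ⌊u / ρ⌋ = ⌊v / ρ⌋) : |v - u| ≤ ρ := by
  have h1 := Int.floor_le (u / ρ)
  have h2 := Int.lt_floor_add_one (u / ρ)
  have h3 := Int.floor_le (v / ρ)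
  have h4 := Int.lt_floor_add_one (v / ρ)
  rw [← h] at h3 h4
  rw [le_div_iff₀ hρ] at h1 h3
  rw [div_lt_iff₀ hρ] at h2 h4
  rw [abs_le]
  constructor <;> nlinarith

/-- the cell of a number in `[-1, 1]` -/
theorem floor_mem {u ρ : ℝ} (hρ : 0 < ρ) (hu : |u| ≤ 1) :
    ⌊u / ρ⌋ ∈ Finset.Icc (-((⌊1 / ρ⌋₊ : ℤ) + 1)) (⌊1 / ρ⌋₊ : ℤ) := by
  have hM := Nat.lt_floor_add_one (1 / ρ)
  have hu' := abs_le.1 hu
  have h1 : u / ρ ≤ 1 / ρ := by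
    rw [div_le_div_iff_of_pos_right hρ]
    exact hu'.2
  have h2 : -(1 / ρ) ≤ u / ρ := by
    rw [← neg_div, div_le_div_iff_of_pos_right hρ]
    exact hu'.1
  rw [Finset.mem_Icc]
  constructor
  · rw [Int.le_floor]
    push_cast
    linarith
  · have h3 : ⌊u / ρ⌋ < (⌊1 / ρ⌋₊ : ℤ) + 1 := by
      rw [Int.floor_lt]
      push_cast
      linarith
    omega

theorem pg2 : Pg2Stmt := by
  classical
  refine ⟨4097, by norm_num, ?_⟩
  intro ρ T x e f hρ hρ1 hT hef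
  obtain ⟨M, hM⟩ : ∃ M : ℕ, M = ⌊1 / ρ⌋₊ := ⟨_, rfl⟩
  obtain ⟨B, hB⟩ : ∃ B : Finset ℤ, B = Finset.Icc (-((M : ℤ) + 1)) (M : ℤ) := ⟨_, rfl⟩
  have hBc : B.card = 2 * M + 2 := by
    rw [hB, Int.card_Icc]
    omega
  obtain ⟨p, hp⟩ : ∃ p : ℕ → ℤ × ℤ × ℤ × ℤ × ℤ × ℤ, ∀ i,
      p i = (⌊Int.fract (x i).1 / ρ⌋, ⌊Int.fract (x i).2 / ρ⌋, ⌊(e i).1 / ρ⌋, ⌊(e i).2 / ρ⌋,
        ⌊(f i).1 / ρ⌋, ⌊(f i).2 / ρ⌋) := ⟨_, fun _ => rfl⟩
  have hfr : ∀ t : ℝ, |Int.fract t| ≤ 1 := by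
    intro t
    rw [abs_of_nonneg (Int.fract_nonneg t)]
    exact (Int.fract_lt_one t).le
  have hco : ∀ v : E, ‖v‖ = 1 → |v.1| ≤ 1 ∧ |v.2| ≤ 1 := by
    intro v hv
    have h1 := norm_fst_le v
    have h2 := norm_snd_le v
    rw [hv] at h1 h2
    exact ⟨h1, h2⟩
  have hmem : ∀ i ∈ T, p i ∈ B ×ˢ B ×ˢ B ×ˢ B ×ˢ B ×ˢ B := by
    intro i hi
    obtain ⟨h1, h2⟩ := hef i hi
    obtain ⟨a1, a2⟩ := hco _ h1
    obtain ⟨b1, b2⟩ := hco _ h2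
    rw [hp, hB, hM]
    simp only [Finset.mem_product]
    exact ⟨floor_mem hρ (hfr _), floor_mem hρ (hfr _), floor_mem hρ a1, floor_mem hρ a2,
      floor_mem hρ b1, floor_mem hρ b2⟩
  have hcard : (B ×ˢ B ×ˢ B ×ˢ B ×ˢ B ×ˢ B).card < T.card := by
    simp only [Finset.card_product, hBc]
    have h1 : (M : ℝ) ≤ 1 / ρ := by
      rw [hM]
      exact Nat.floor_le (by positivity)
    have h2 : (1 : ℝ) ≤ 1 / ρ := by
      rw [le_div_iff₀ hρ]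
      linarith
    have h3 : (2 * (M : ℝ) + 2) ≤ 4 * (1 / ρ) := by linarith
    have h4 : (2 * (M : ℝ) + 2) ^ 6 ≤ (4 * (1 / ρ)) ^ 6 :=
      pow_le_pow_left₀ (by positivity) h3 6
    have h5 : (4 * (1 / ρ)) ^ 6 = 4096 / ρ ^ 6 := by
      rw [mul_pow, one_div, inv_pow, div_eq_mul_inv]
      norm_num
    have h6 : 4096 / ρ ^ 6 < 4097 / ρ ^ 6 :=
      div_lt_div_of_pos_right (by norm_num) (pow_pos hρ 6)
    have h7 : (2 * (M : ℝ) + 2) ^ 6 < T.card := by linarith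
    have h8 : (((2 * M + 2) * ((2 * M + 2) * ((2 * M + 2) * ((2 * M + 2) * ((2 * M + 2) *
        (2 * M + 2))))) : ℕ) : ℝ) < T.card := by
      have h9 : (((2 * M + 2) * ((2 * M + 2) * ((2 * M + 2) * ((2 * M + 2) * ((2 * M + 2) *
        (2 * M + 2))))) : ℕ) : ℝ) = (2 * (M : ℝ) + 2) ^ 6 := by
        push_cast
        ring
      rw [h9]
      exact h7
    exact_mod_cast h8
  obtain ⟨j, hj, j', hj', hne, hcc⟩ := Finset.exists_ne_map_eq_of_card_lt_of_maps_to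
    (s := T) (t := B ×ˢ B ×ˢ B ×ˢ B ×ˢ B ×ˢ B) (f := p) hcard
    (fun i hi => hmem i hi)
  have key : ∀ j j' : ℕ, p j = p j' → (∃ a b : ℤ, ‖x j' - x j - iv a b‖ ≤ ρ) ∧
      ‖e j' - e j‖ ≤ ρ ∧ ‖f j' - f j‖ ≤ ρ := by
    intro j j' hcc
    rw [hp, hp] at hcc
    simp only [Prod.mk.injEq] at hcc
    obtain ⟨c1, c2, c3, c4, c5, c6⟩ := hcc
    refine ⟨⟨⌊(x j').1⌋ - ⌊(x j).1⌋, ⌊(x j').2⌋ - ⌊(x j).2⌋, ?_⟩, ?_, ?_⟩
    · have e1 : x j' - x j - iv (⌊(x j').1⌋ - ⌊(x j).1⌋) (⌊(x j').2⌋ - ⌊(x j).2⌋) =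
          ((Int.fract (x j').1 - Int.fract (x j).1, Int.fract (x j').2 - Int.fract (x j).2) : E) := by
        unfold iv
        ext
        · simp only [Prod.fst_sub, Int.fract]
          push_cast
          ring
        · simp only [Prod.snd_sub, Int.fract]
          push_cast
          ring
      rw [e1, Prod.norm_def]
      exact max_le (floor_close hρ c1) (floor_close hρ c2)
    · rw [Prod.norm_def]
      exact max_le (floor_close hρ c3) (floor_close hρ c4)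
    · rw [Prod.norm_def]
      exact max_le (floor_close hρ c5) (floor_close hρ c6)
  rcases lt_or_gt_of_ne hne with h | h
  · exact ⟨j, hj, j', hj', h, key j j' hcc⟩
  · exact ⟨j', hj', j, hj, h, key j' j hcc.symm⟩

end Pool.Agent.KTK.H3
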